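import Pool.Agent.Helper53.Comp.GoalsC

/-!
# Packet A1: the rank function of an arrangement
-/

namespace Mono

namespace Comp

namespace A1

open Finset

variable (M : ArrGerm)

theorem span_insert' (S : Finset (Fin M.m)) (h : Fin M.m) :
    Submodule.span ℂ (M.v '' ((insert h S : Finset (Fin M.m)) : Set (Fin M.m))) =
      Submodule.span ℂ {M.v h} ⊔ Submodule.span ℂ (M.v '' (S : Set (Fin M.m))) := by
  rw [Finset.coe_insert, Set.image_insert_eq, Submodule.span_insert]

theorem rk_empty : M.rk ∅ = 0 := by
  unfold ArrGerm.rk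
  rw [Finset.coe_empty, Set.image_empty, Submodule.span_empty]
  exact finrank_bot _ _

theorem rk_mono (S T : Finset (Fin M.m)) (h : S ⊆ T) : M.rk S ≤ M.rk T := by
  unfold ArrGerm.rk
  exact Submodule.finrank_mono (Submodule.span_mono (Set.image_mono (by exact_mod_cast h)))

theorem rk_insert_le (S : Finset (Fin M.m)) (h : Fin M.m) : M.rk (insert h S) ≤ M.rk S + 1 := by
  unfold ArrGerm.rk
  rw [span_insert']
  have h1 := Submodule.finrank_add_le_finrank_add_finrank (Submodule.span ℂ {M.v h})
    (Submodule.span ℂ (M.v '' (S : Set (Fin M.m))))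
  have h2 : Module.finrank ℂ (Submodule.span ℂ {M.v h}) = 1 := finrank_span_singleton (M.ne h)
  omega

theorem rk_submod (S T : Finset (Fin M.m)) :
    M.rk (S ∪ T) + M.rk (S ∩ T) ≤ M.rk S + M.rk T := by
  unfold ArrGerm.rk
  have h1 := Submodule.finrank_sup_add_finrank_inf_eq
    (Submodule.span ℂ (M.v '' (S : Set (Fin M.m)))) (Submodule.span ℂ (M.v '' (T : Set (Fin M.m))))
  rw [← Submodule.span_union, ← Set.image_union] at h1
  have h2 : Module.finrank ℂ (Submodule.span ℂ (M.v '' ((S ∩ T : Finset (Fin M.m)) :
      Set (Fin M.m)))) ≤ Module.finrank ℂ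
        ↥(Submodule.span ℂ (M.v '' (S : Set (Fin M.m))) ⊓
          Submodule.span ℂ (M.v '' (T : Set (Fin M.m)))) := by
    refine Submodule.finrank_mono (le_inf ?_ ?_)
    · refine Submodule.span_mono (Set.image_mono ?_)
      rw [Finset.coe_inter]
      exact Set.inter_subset_left
    · refine Submodule.span_mono (Set.image_mono ?_)
      rw [Finset.coe_inter]
      exact Set.inter_subset_right
  rw [Finset.coe_union]
  omega

theorem rk_insert_of_mem (S : Finset (Fin M.m)) (h : Fin M.m)
    (hm : M.v h ∈ Submodule.span ℂ (M.v '' (S : Set (Fin M.m)))) :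
    M.rk (insert h S) = M.rk S := by
  unfold ArrGerm.rk
  rw [span_insert', sup_eq_right.2]
  rw [Submodule.span_singleton_le_iff_mem]
  exact hm

theorem rk_insert_of_notMem (S : Finset (Fin M.m)) (h : Fin M.m)
    (hm : M.v h ∉ Submodule.span ℂ (M.v '' (S : Set (Fin M.m)))) :
    M.rk (insert h S) = M.rk S + 1 := by
  refine le_antisymm (rk_insert_le M S h) ?_
  unfold ArrGerm.rk
  refine Submodule.finrank_lt_finrank_of_lt ?_
  rw [span_insert']
  refine lt_of_le_of_ne le_sup_right fun h1 => hm ?_
  rw [h1]
  exact Submodule.mem_sup_left (Submodule.mem_span_singleton_self _)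

theorem rk_le_card (S : Finset (Fin M.m)) : M.rk S ≤ S.card := by
  induction S using Finset.induction_on with
  | empty => exact (rk_empty M).le
  | insert a s ha ih =>
    rw [Finset.card_insert_of_notMem ha]
    exact (rk_insert_le M s a).trans (Nat.succ_le_succ ih)

end A1

theorem arrRank : ArrRank := by
  intro M
  refine ⟨⟨A1.rk_empty M, A1.rk_mono M, fun S x => A1.rk_insert_le M S x, A1.rk_submod M⟩,
    fun h => ?_, fun F => ?_, A1.rk_le_card M⟩
  · unfold ArrGerm.rk
    rw [Finset.coe_singleton, Set.image_singleton]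
    exact finrank_span_singleton (M.ne h)
  · constructor
    · intro hF h hh
      exact A1.rk_insert_of_notMem M F h fun h1 => hh (hF h h1)
    · intro hF h h1
      by_contra hh
      have h2 := hF h hh
      rw [A1.rk_insert_of_mem M F h h1] at h2
      omega

end Comp

end Mono
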